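import Pool.Agent.helper76.LP.Defs2
import Pool.Agent.helper52.QR.LN

/-!
# qr:MC  the Fourier coefficients of a Tate function at primitive characters
-/

set_option autoImplicit false

namespace Pool.Agent.helper76.LP

open Finset

section MC
variable {m : ℕ} [NeZero m]

/-- the coefficient of the Tate condition at a character -/
noncomputable def MC_A (ψ : DirichletCharacter ℂ m) (x : ZMod m) : ℂ :=
  ∑ t : (ZMod m)ˣ, ψ (t : ZMod m) * (saw m ((t : ZMod m) * x) : ℂ)

lemma MC_A_mul (ψ : DirichletCharacter ℂ m) (u : (ZMod m)ˣ) (x : ZMod m) :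
    MC_A ψ ((u : ZMod m) * x) * ψ (u : ZMod m) = MC_A ψ x := by
  unfold MC_A
  rw [Finset.sum_mul, ← Equiv.sum_comp (Equiv.mulRight u)
    (fun t : (ZMod m)ˣ => ψ (t : ZMod m) * (saw m ((t : ZMod m) * x) : ℂ))]
  refine Finset.sum_congr rfl fun t _ => ?_
  rw [Equiv.coe_mulRight, Units.val_mul, map_mul, mul_assoc, mul_assoc,
    mul_assoc (t : ZMod m) (u : ZMod m) x]
  ring

lemma MC_vanish (ψ : DirichletCharacter ℂ m) (x : ZMod m) (h : ¬ ψ.conductor ∣ addOrderOf x) :
    MC_A ψ x = 0 := by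
  by_contra hA
  apply h
  have he : addOrderOf x ∣ m := addOrderOf_dvd' x
  have hne : NeZero (addOrderOf x) := ⟨(Nat.pos_of_dvd_of_pos he (Nat.pos_of_ne_zero
    (NeZero.ne m))).ne'⟩
  rw [← DirichletCharacter.mem_conductorSet_iff_conductor_dvd ψ he,
    DirichletCharacter.mem_conductorSet_iff, DirichletCharacter.factorsThrough_iff_ker_unitsMap he]
  intro u hu
  rw [MonoidHom.mem_ker] at hu ⊢
  obtain ⟨y, hy⟩ := exists_emb x rfl
  have hux : (u : ZMod m) * x = x := by
    conv_lhs => rw [← hy]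
    rw [mul_emb he]
    have h1 : ZMod.castHom he (ZMod (addOrderOf x)) (u : ZMod m) = 1 := by
      have := congrArg Units.val hu
      rw [ZMod.unitsMap_val] at this
      simpa using this
    rw [h1, one_mul, hy]
  have h2 := MC_A_mul ψ u x
  rw [hux] at h2
  have h3 : ψ (u : ZMod m) = 1 := by
    have : MC_A ψ x * ψ (u : ZMod m) = MC_A ψ x * 1 := by rw [h2, mul_one]
    exact mul_left_cancel₀ hA this
  apply Units.ext
  simpa using h3

lemma MC_saw_emb {d : ℕ} [NeZero d] (hd : d ∣ m) (w : ZMod d) :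
    saw m (emb d m w) = ((m / d : ℕ) : ℤ) * saw d w := by
  unfold saw
  rcases eq_or_ne w 0 with rfl | hw
  · simp [emb_zero]
  · have h1 : emb d m w ≠ 0 := fun h => hw (emb_injective hd (h.trans emb_zero.symm))
    rw [if_neg h1, if_neg hw, emb_val hd]
    have h2 : (m : ℤ) = ((m / d : ℕ) : ℤ) * d := by
      rw [← Nat.cast_mul, Nat.div_mul_cancel hd]
    rw [Nat.cast_mul]
    linear_combination (-1 : ℤ) * h2

end MC

lemma MC_bernoulli (d : ℕ) [NeZero d] (χ : DirichletCharacter ℂ d) (hp : χ.IsPrimitive)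
    (ho : χ.Odd) : ∑ s : (ZMod d)ˣ, χ (s : ZMod d) * (saw d (s : ZMod d) : ℂ) ≠ 0 := by
  classical
  have hd1 : d ≠ 1 := by
    rintro rfl
    have h1 : χ = 1 := DirichletCharacter.level_one χ
    rw [h1] at ho
    have h2 : (1 : DirichletCharacter ℂ 1) (-1) = -1 := ho
    rw [show (-1 : ZMod 1) = 1 from Subsingleton.elim _ _, map_one] at h2
    norm_num at h2
  have hχ1 : χ ≠ 1 := by
    rintro rfl
    have h2 : (1 : DirichletCharacter ℂ d) (-1) = -1 := ho
    rw [MulChar.one_apply (isUnit_one.neg)] at h2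
    norm_num at h2
  have h0 : χ 0 = 0 := DirichletCharacter.map_zero' χ hd1
  have e1 : ∑ s : (ZMod d)ˣ, χ (s : ZMod d) * (saw d (s : ZMod d) : ℂ) =
      ∑ a : ZMod d, χ a * (saw d a : ℂ) := by
    have h := Finset.sum_image (s := (univ : Finset (ZMod d)ˣ)) (g := fun s : (ZMod d)ˣ => (s : ZMod d))
      (f := fun a => χ a * (saw d a : ℂ)) (fun x _ y _ hxy => Units.ext hxy)
    rw [← h]
    refine Finset.sum_subset (Finset.subset_univ _) fun a _ ha => ?_
    have : ¬ IsUnit a := fun hu => ha (Finset.mem_image.2 ⟨hu.unit, Finset.mem_univ _, rfl⟩)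
    rw [MulChar.map_nonunit χ this, zero_mul]
  have e2 : ∑ a : ZMod d, χ a * (saw d a : ℂ) =
      2 * (∑ a : ZMod d, χ a * (a.val : ℂ)) - d * ∑ a : ZMod d, χ a := by
    rw [Finset.mul_sum, Finset.mul_sum, ← Finset.sum_sub_distrib]
    refine Finset.sum_congr rfl fun a _ => ?_
    unfold saw
    split_ifs with h
    · rw [h, h0]; simp
    · push_cast; ring
  rw [e1, e2, MulChar.sum_eq_zero_of_ne_one hχ1, mul_zero, sub_zero]
  exact mul_ne_zero two_ne_zero (bernoulli_ne d χ hp ho)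

lemma MC_base {m : ℕ} [NeZero m] {d : ℕ} [NeZero d] (hd : d ∣ m) (χ : DirichletCharacter ℂ d)
    (hp : χ.IsPrimitive) (ho : χ.Odd) :
    MC_A (DirichletCharacter.changeLevel hd χ) (emb d m 1) ≠ 0 := by
  classical
  have hm : 0 < m := Nat.pos_of_ne_zero (NeZero.ne m)
  have hd0 : 0 < d := Nat.pos_of_ne_zero (NeZero.ne d)
  have e1 : MC_A (DirichletCharacter.changeLevel hd χ) (emb d m 1) =
      ∑ t : (ZMod m)ˣ, (fun s : (ZMod d)ˣ => ((m / d : ℕ) : ℂ) *
        (χ (s : ZMod d) * (saw d (s : ZMod d) : ℂ))) (ZMod.unitsMap hd t) := by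
    unfold MC_A
    refine Finset.sum_congr rfl fun t _ => ?_
    beta_reduce
    rw [mul_emb hd, mul_one, MC_saw_emb hd, DirichletCharacter.changeLevel_eq_cast_of_dvd,
      ZMod.unitsMap_val, ZMod.castHom_apply, Int.cast_mul, Int.cast_natCast]
    ring
  have e2 : ∑ t : (ZMod m)ˣ, (fun s : (ZMod d)ˣ => ((m / d : ℕ) : ℂ) *
        (χ (s : ZMod d) * (saw d (s : ZMod d) : ℂ))) (ZMod.unitsMap hd t) =
      ((univ.filter fun t : (ZMod m)ˣ => ZMod.unitsMap hd t = 1).card : ℂ) *
        ∑ s : (ZMod d)ˣ, ((m / d : ℕ) : ℂ) * (χ (s : ZMod d) * (saw d (s : ZMod d) : ℂ)) := by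
    rw [← Finset.sum_fiberwise_of_maps_to (g := fun t : (ZMod m)ˣ => ZMod.unitsMap hd t)
      (t := univ) (fun _ _ => Finset.mem_univ _), Finset.mul_sum]
    refine Finset.sum_congr rfl fun s _ => ?_
    rw [Finset.sum_congr rfl (g := fun _ => ((m / d : ℕ) : ℂ) *
      (χ (s : ZMod d) * (saw d (s : ZMod d) : ℂ))) (fun t ht => by
        rw [(Finset.mem_filter.1 ht).2]), Finset.sum_const, nsmul_eq_mul]
    congr 2
    obtain ⟨t0, ht0⟩ := ZMod.unitsMap_surjective hd s
    refine Finset.card_bij' (fun t _ => t * t0⁻¹) (fun t _ => t * t0) ?_ ?_ ?_ ?_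
    · intro t ht
      rw [Finset.mem_filter] at ht ⊢
      refine ⟨Finset.mem_univ _, ?_⟩
      rw [map_mul, map_inv, ht.2, ht0, mul_inv_cancel]
    · intro t ht
      rw [Finset.mem_filter] at ht ⊢
      refine ⟨Finset.mem_univ _, ?_⟩
      rw [map_mul, ht.2, ht0, one_mul]
    · intro t _; simp
    · intro t _; simp
  rw [e1, e2, ← Finset.mul_sum]
  refine mul_ne_zero ?_ (mul_ne_zero ?_ (MC_bernoulli d χ hp ho))
  · rw [Nat.cast_ne_zero, Finset.card_ne_zero]
    exact ⟨1, by simp⟩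
  · rw [Nat.cast_ne_zero]
    exact (Nat.div_pos (Nat.le_of_dvd hm hd) hd0).ne'

theorem fourier_zero (m : ℕ) [NeZero m] (F : ZMod m → ℤ) (hodd : ∀ x, F (-x) = - F x)
    (hT : TateF F) (d : ℕ) [NeZero d] (hd : d ∣ m)
    (hmax : ∀ x, d ∣ addOrderOf x → addOrderOf x ≠ d → F x = 0)
    (χ : DirichletCharacter ℂ d) (hp : χ.IsPrimitive) :
    ∑ z : (ZMod d)ˣ, (F (emb d m (z : ZMod d)) : ℂ) * χ (z : ZMod d) = 0 := by
  classical
  rcases χ.even_or_odd with he | ho
  · have h := Equiv.sum_comp (Equiv.neg (ZMod d)ˣ)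
      (fun z : (ZMod d)ˣ => (F (emb d m (z : ZMod d)) : ℂ) * χ (z : ZMod d))
    have h2 : ∑ z : (ZMod d)ˣ, (F (emb d m ((Equiv.neg (ZMod d)ˣ z : (ZMod d)ˣ) : ZMod d)) : ℂ) *
        χ ((Equiv.neg (ZMod d)ˣ z : (ZMod d)ˣ) : ZMod d) =
        -∑ z : (ZMod d)ˣ, (F (emb d m (z : ZMod d)) : ℂ) * χ (z : ZMod d) := by
      rw [← Finset.sum_neg_distrib]
      refine Finset.sum_congr rfl fun z _ => ?_
      rw [Equiv.neg_apply, Units.val_neg, emb_neg hd, hodd, he.eval_neg]
      push_cast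
      ring
    rw [h2] at h
    have h3 : (2 : ℂ) * ∑ z : (ZMod d)ˣ, (F (emb d m (z : ZMod d)) : ℂ) * χ (z : ZMod d) = 0 := by
      linear_combination -h
    exact (mul_eq_zero.1 h3).resolve_left two_ne_zero
  · set ψ := DirichletCharacter.changeLevel hd χ with hψ
    have hcond : ψ.conductor = d := by
      rw [hψ, DirichletCharacter.conductor_changeLevel]
      exact hp
    have h1 : ∑ x : ZMod m, (F x : ℂ) * MC_A ψ x = 0 := by
      have h2 : ∑ x : ZMod m, (F x : ℂ) * MC_A ψ x =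
          ∑ t : (ZMod m)ˣ, ψ (t : ZMod m) *
            ((∑ x, F x * saw m ((t : ZMod m) * x) : ℤ) : ℂ) := by
        unfold MC_A
        simp_rw [Finset.mul_sum]
        rw [Finset.sum_comm]
        refine Finset.sum_congr rfl fun t _ => ?_
        push_cast
        rw [Finset.mul_sum]
        refine Finset.sum_congr rfl fun x _ => ?_
        ring
      rw [h2]
      refine Finset.sum_eq_zero fun t _ => ?_
      rw [hT t]
      simp
    have h3 : ∑ x : ZMod m, (F x : ℂ) * MC_A ψ x =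
        ∑ z : (ZMod d)ˣ, (F (emb d m (z : ZMod d)) : ℂ) * MC_A ψ (emb d m (z : ZMod d)) := by
      have h4 := sum_ext_smul (m := m) (fun z : (ZMod d)ˣ => F (emb d m (z : ZMod d)))
        (fun x => MC_A ψ x)
      simp only [zsmul_eq_mul] at h4
      rw [← h4]
      refine Finset.sum_congr rfl fun x _ => ?_
      by_cases hx : addOrderOf x = d
      · obtain ⟨z, hz⟩ := exists_emb x hx
        rw [← hz, ext_emb hd]
      · rw [ext_of_order_ne hd _ x hx]
        by_cases hdx : d ∣ addOrderOf x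
        · rw [hmax x hdx hx]
        · rw [MC_vanish ψ x (by rwa [hcond]), mul_zero, mul_zero]
    have h5 : ∀ z : (ZMod d)ˣ, MC_A ψ (emb d m (z : ZMod d)) =
        MC_A ψ (emb d m 1) * (starRingEnd ℂ) (χ (z : ZMod d)) := by
      intro z
      obtain ⟨t, ht⟩ := ZMod.unitsMap_surjective hd z
      have h6 := MC_A_mul ψ t (emb d m 1)
      have h7 : (t : ZMod m) * emb d m 1 = emb d m (z : ZMod d) := by
        rw [mul_emb hd, mul_one, ← ht, ZMod.unitsMap_val, ZMod.castHom_apply]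
      have h8 : ψ (t : ZMod m) = χ (z : ZMod d) := by
        rw [hψ, DirichletCharacter.changeLevel_eq_cast_of_dvd, ← ht, ZMod.unitsMap_val]
      rw [h7, h8] at h6
      have h9 : χ (z : ZMod d) * (starRingEnd ℂ) (χ (z : ZMod d)) = 1 := by
        rw [Complex.mul_conj, Complex.normSq_eq_norm_sq, DirichletCharacter.unit_norm_eq_one]
        norm_num
      rw [← h6, mul_assoc, h9, mul_one]
    rw [h3] at h1
    have h10 : MC_A ψ (emb d m 1) *
        (starRingEnd ℂ) (∑ z : (ZMod d)ˣ, (F (emb d m (z : ZMod d)) : ℂ) * χ (z : ZMod d)) = 0 := by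
      rw [← h1, map_sum, Finset.mul_sum]
      refine Finset.sum_congr rfl fun z _ => ?_
      rw [h5 z, map_mul]
      have : (starRingEnd ℂ) (F (emb d m (z : ZMod d)) : ℂ) = (F (emb d m (z : ZMod d)) : ℂ) := by
        simp
      rw [this]
      ring
    have h11 := (mul_eq_zero.1 h10).resolve_left (MC_base hd χ hp ho)
    exact (map_eq_zero _).1 h11

end Pool.Agent.helper76.LP
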